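import Mathlib
import Pool.Agent.Helper40.DZ.Pub

/-!
Definitions used in the statement on isometric extensions.
-/

open MeasureTheory

namespace Pool.Agent.Helper40.IZP

open Pool.Agent.Helper16.CZP (Base)
open Pool.Agent.Helper40.DZP (ZeroEnt)

/-- The map `T` of the space `X` is an isometric extension of the map `S` of the torus: the map `π`
from `X` to the torus is continuous with `π T = S π`, and `ρ` is a continuous function on the pairs
of points with the same image under `π` which is a metric on every fibre of `π` and is preserved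
by `T`. (`T` need not be continuous.) -/
def IsoExt {X : Type} [TopologicalSpace X] {r : ℕ} (π : X → UnitAddTorus (Fin r))
    (S : UnitAddTorus (Fin r) → UnitAddTorus (Fin r)) (T : X → X) (ρ : X → X → ℝ) : Prop :=
  Continuous π ∧ (∀ x, π (T x) = S (π x)) ∧
  ContinuousOn (fun z : X × X => ρ z.1 z.2) {z | π z.1 = π z.2} ∧
  (∀ x x', π x = π x' → (ρ x x' = 0 ↔ x = x')) ∧
  (∀ x x', π x = π x' → ρ x x' = ρ x' x) ∧
  (∀ x x' x'', π x = π x' → π x' = π x'' → ρ x x'' ≤ ρ x x' + ρ x' x'') ∧
  ∀ x x', π x = π x' → ρ (T x) (T x') = ρ x x'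

/-- for almost all points `y` of the torus the function `f` is continuous at all points of the
fibre of `π` over `y` -/
def FibreCts {X Y : Type} [TopologicalSpace X] [TopologicalSpace Y] {r : ℕ}
    (π : X → UnitAddTorus (Fin r)) (f : X → Y) : Prop :=
  ∀ᵐ y ∂(Measure.pi fun _ : Fin r => (AddCircle.haarAddCircle : Measure UnitAddCircle)),
    ∀ x, π x = y → ContinuousAt f x

/-- the hypotheses on `S`, the map `T` of `X` and the function `F` on `X` -/
def Adm {X : Type} [TopologicalSpace X] {r : ℕ} (π : X → UnitAddTorus (Fin r))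
    (S : C(UnitAddTorus (Fin r), UnitAddTorus (Fin r))) (T : X → X) (F : X → ℂ) : Prop :=
  (Base S ∧ FibreCts π T ∧ FibreCts π F ∧ ∃ C : ℝ, ∀ x, ‖F x‖ ≤ C) ∨
  (ZeroEnt S ∧ Continuous T ∧ Continuous F)

end Pool.Agent.Helper40.IZP
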