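import Pool.Agent.Helper40.DZ.Stmts2
import Pool.Agent.Helper96.DZ.Stmts3
import Pool.Agent.Helper40.IZ.Pub

/-!
Moebius disjointness of isometric extensions: definitions and statements of the modules
(MP_7a8f48_an). Every module proves one `ST_X` from earlier ones, which are hypotheses of its
theorem.
-/

open Finset Filter MeasureTheory Topology
open scoped ComplexConjugate InnerProductSpace

namespace Pool.Agent.Helper40.IZ

open Pool.Agent.Helper16.AZ (T E Op mm)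
open Pool.Agent.Helper16.BZ (co ff EQ)
open Pool.Agent.Helper16.MD (MS)
open Pool.Agent.Helper40.DZ (RI UR Good3 ZEnt)
open Pool.Agent.Helper40.IZP (IsoExt FibreCts)

/-! ## Block G: geometry of the fibres -/

/-- CMP: the metric of `X` and the metric `ρ` of the fibres are uniformly equivalent. -/
def ST_CMP : Prop := ∀ (X : Type) [MetricSpace X] [CompactSpace X] (r : ℕ) (π : X → T r)
  (S : T r → T r) (τ : X → X) (ρ : X → X → ℝ), IsoExt π S τ ρ →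
  (∀ ε : ℝ, 0 < ε → ∃ δ : ℝ, 0 < δ ∧ ∀ x x', π x = π x' → ρ x x' < δ → dist x x' < ε) ∧
  ∀ ε : ℝ, 0 < ε → ∃ δ : ℝ, 0 < δ ∧ ∀ x x', π x = π x' → dist x x' < δ → ρ x x' < ε

/-- the isometries of `M` onto subsets of the fibre over `y` -/
def Emb {X : Type} [MetricSpace X] {r : ℕ} (π : X → T r) (ρ : X → X → ℝ) (M : Type)
    [MetricSpace M] (y : T r) : Set C(M, X) :=
  {θ | (∀ m, π (θ m) = y) ∧ ∀ m m', ρ (θ m) (θ m') = dist m m'}

/-- EQC: compactness (Arzela and Ascoli). -/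
def ST_EQC : Prop := ∀ (X : Type) [MetricSpace X] [CompactSpace X] (r : ℕ) (π : X → T r)
  (S : T r → T r) (τ : X → X) (ρ : X → X → ℝ) (M : Type) [MetricSpace M] [CompactSpace M],
  IsoExt π S τ ρ → IsCompact {p : T r × C(M, X) | p.2 ∈ Emb π ρ M p.1}

/-- EMB: isometries between the fibres (limits of `τ^n` along an ultrafilter). -/
def ST_EMB : Prop := ∀ (X : Type) [MetricSpace X] [CompactSpace X] (r : ℕ) (π : X → T r)
  (S : T r → T r) (τ : X → X) (ρ : X → X → ℝ), IsoExt π S τ ρ → EQ S (mm r) →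
  ∀ y₀ y₁ : T r, ∃ g : X → X, ∀ x, π x = y₀ → π (g x) = y₁ ∧
    ∀ x', π x' = y₀ → ρ (g x) (g x') = ρ x x'

/-- the compact metric space `M` is a model of all fibres; `Θ y` is the set of the isometries of
`M` onto the fibre over `y` -/
def Mod {X : Type} [MetricSpace X] {r : ℕ} (π : X → T r) (S : T r → T r) (τ : X → X)
    (M : Type) [MetricSpace M] (Θ : T r → Set C(M, X)) : Prop :=
  (∀ y, (Θ y).Nonempty) ∧
  (∀ y, ∀ θ ∈ Θ y, Function.Injective θ ∧ ∀ x, π x = y ↔ ∃ m, θ m = x) ∧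
  (∀ y, ∀ θ ∈ Θ y, ∀ θ' ∈ Θ y, ∃ k : M ≃ᵢ M, ∀ m, θ' m = θ (k m)) ∧
  (∀ y, ∀ θ ∈ Θ y, ∀ k : M ≃ᵢ M, ∃ θ' ∈ Θ y, ∀ m, θ' m = θ (k m)) ∧
  (∀ y, ∀ θ ∈ Θ y, ∃ θ' ∈ Θ (S y), ∀ m, θ' m = τ (θ m)) ∧
  IsCompact {p : T r × C(M, X) | p.2 ∈ Θ p.1}

/-- MOD: the model. -/
def ST_MOD : Prop := ∀ (X : Type) [MetricSpace X] [CompactSpace X] (r : ℕ) (π : X → T r)
  (S : T r → T r) (τ : X → X) (ρ : X → X → ℝ) (_ : X), IsoExt π S τ ρ → EQ S (mm r) →
  ∃ (M : Type) (_ : MetricSpace M) (_ : CompactSpace M) (Θ : T r → Set C(M, X)),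
    Nonempty M ∧ Mod π S τ M Θ

/-- HMG: the isometries of a compact metric space are a compact group. -/
def ST_HMG : Prop := ∀ (M : Type) [MetricSpace M] [CompactSpace M],
  ∃ t : TopologicalSpace (M ≃ᵢ M), IsTopologicalGroup (M ≃ᵢ M) ∧ CompactSpace (M ≃ᵢ M) ∧
    T2Space (M ≃ᵢ M) ∧ ∀ m : M, Continuous fun k : M ≃ᵢ M => k m

/-- HMS: an invariant measure on a compact metric space. -/
def ST_HMS : Prop := ∀ (M : Type) [MetricSpace M] [CompactSpace M] [Nonempty M]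
  [MeasurableSpace M] [BorelSpace M], ∃ μ : Measure M, IsProbabilityMeasure μ ∧
    (∀ U : Set M, IsOpen U → U.Nonempty → 0 < μ U) ∧ ∀ k : M ≃ᵢ M, MeasurePreserving k μ μ

/-! ## Block F: functions on the fibres -/

/-- the coefficients of `f` with respect to the functions `e` -/
noncomputable def cf {M : Type} [TopologicalSpace M] [MeasurableSpace M] (μ : Measure M) {d : ℕ}
    (e : Fin d → C(M, ℂ)) (f : M → ℂ) : E d :=
  WithLp.toLp 2 fun i => ∫ m, conj (e i m) * f m ∂μ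

/-- the functions `e` are orthonormal and the isometries of `M` act on the coefficients by unitary
operators -/
def Fr {M : Type} [MetricSpace M] [MeasurableSpace M] (μ : Measure M) {d : ℕ}
    (e : Fin d → C(M, ℂ)) : Prop :=
  (∀ i j, ∫ m, conj (e i m) * e j m ∂μ = if i = j then 1 else 0) ∧
  ∀ k : M ≃ᵢ M, ∃ R ∈ unitary (Op d), ∀ f : C(M, ℂ), cf μ e (fun m => f (k m)) = R (cf μ e f)

/-- KOP: an operator with a Lipschitz kernel. -/
def ST_KOP : Prop := ∀ (M : Type) [MetricSpace M] [CompactSpace M] [MeasurableSpace M]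
  [BorelSpace M] (μ : Measure M) [IsProbabilityMeasure μ] (δ : ℝ), 0 < δ →
  ∃ P : Lp ℂ 2 μ →L[ℂ] Lp ℂ 2 μ, IsCompactOperator P ∧
    LinearMap.IsSymmetric (P : Lp ℂ 2 μ →ₗ[ℂ] Lp ℂ 2 μ) ∧
    ∀ h : Lp ℂ 2 μ, ∀ᵐ m ∂μ, (P h : M → ℂ) m =
      ∫ m', ((max 0 (δ - dist m m') : ℝ) : ℂ) * (h : M → ℂ) m' ∂μ

/-- SPC: the spectral theorem on a compact set. -/
def ST_SPC : Prop := ∀ (H : Type) [NormedAddCommGroup H] [InnerProductSpace ℂ H] [CompleteSpace H]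
  (P : H →L[ℂ] H), IsCompactOperator P → LinearMap.IsSymmetric (P : H →ₗ[ℂ] H) →
  ∀ K : Set H, IsCompact K → ∀ η : ℝ, 0 < η → ∃ V : Submodule ℂ H, FiniteDimensional ℂ V ∧
  (∀ v ∈ V, ∃ v' ∈ V, P v' = v) ∧
  (∀ U : H →L[ℂ] H, (∀ h, U (P h) = P (U h)) → ∀ v ∈ V, U v ∈ V) ∧
  ∀ f ∈ K, ∃ g ∈ V, ∃ h₀ : H, P h₀ = 0 ∧ (∀ v ∈ V, (inner ℂ v (f - g) : ℂ) = 0) ∧
    ‖f - g - h₀‖ ≤ η

/-- FDE: approximation by finite dimensional invariant spaces. -/
def ST_FDE : Prop := ∀ (M : Type) [MetricSpace M] [CompactSpace M] [MeasurableSpace M]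
  [BorelSpace M] (μ : Measure M) [IsProbabilityMeasure μ],
  (∀ U : Set M, IsOpen U → U.Nonempty → 0 < μ U) → (∀ k : M ≃ᵢ M, MeasurePreserving k μ μ) →
  ∀ K : Set C(M, ℂ), IsCompact K → ∀ ε : ℝ, 0 < ε →
  ∃ (d : ℕ) (e : Fin d → C(M, ℂ)) (w : M → E d), Fr μ e ∧
    ∀ f ∈ K, ∀ m, ‖f m - inner ℂ (w m) (cf μ e f)‖ ≤ ε

/-- the operator with the columns `cf μ e (h j ∘ θ)` -/
noncomputable def HO {X M : Type} [TopologicalSpace X] [TopologicalSpace M] [MeasurableSpace M]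
    (μ : Measure M) {d : ℕ} (e : Fin d → C(M, ℂ)) (h : Fin d → C(X, ℂ)) (θ : C(M, X)) : Op d :=
  ∑ j, ContinuousLinearMap.smulRight (EuclideanSpace.proj j : E d →L[ℂ] ℂ)
    (cf μ e fun m => h j (θ m))

/-- FRM: local frames. -/
def ST_FRM : Prop := ∀ (X : Type) [MetricSpace X] [CompactSpace X] (r : ℕ) (π : X → T r)
  (S : T r → T r) (τ : X → X) (M : Type) [MetricSpace M] [CompactSpace M] [MeasurableSpace M]
  [BorelSpace M] (μ : Measure M) [IsProbabilityMeasure μ] (Θ : T r → Set C(M, X)) (d : ℕ)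
  (e : Fin d → C(M, ℂ)), Mod π S τ M Θ → Fr μ e → ∀ y₁ : T r,
  ∃ (h : Fin d → C(X, ℂ)) (O : Set (T r)), IsOpen O ∧ y₁ ∈ O ∧
    ∀ y ∈ O, ∀ θ ∈ Θ y, IsUnit (HO μ e h θ)

/-- POL: polar decomposition of invertible operators. -/
def ST_POL : Prop := ∀ d : ℕ, ∃ pol : Op d → Op d,
  (∀ H, IsUnit H → pol H ∈ unitary (Op d) ∧ ContinuousAt pol H) ∧
  ∀ R ∈ unitary (Op d), ∀ H, pol (R * H) = R * pol H

/-- CVR: a finite cover and a choice which is locally constant almost everywhere. -/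
def ST_CVR : Prop := ∀ (r : ℕ) (O : T r → Set (T r)), (∀ y, IsOpen (O y) ∧ y ∈ O y) →
  ∃ (n : ℕ) (c : Fin n → T r) (i : T r → Fin n), (∀ y, y ∈ O (c (i y))) ∧
    ∀ᵐ y ∂(mm r), ∀ᶠ y' in 𝓝 y, i y' = i y

/-- CYC: the cocycle of a finite dimensional invariant space. -/
def ST_CYC : Prop := ∀ (X : Type) [MetricSpace X] [CompactSpace X] (r : ℕ) (π : X → T r)
  (S : T r → T r) (τ : X → X) (M : Type) [MetricSpace M] [CompactSpace M] [MeasurableSpace M]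
  [BorelSpace M] (μ : Measure M) [IsProbabilityMeasure μ] (Θ : T r → Set C(M, X)) (d : ℕ)
  (e : Fin d → C(M, ℂ)), Mod π S τ M Θ → Fr μ e → Continuous S →
  MeasurePreserving S (mm r) (mm r) → FibreCts π τ → ∃ φ : T r → Op d, UR φ ∧
  ∀ F : C(X, ℂ), ∃ f : T r → E d, RI f ∧ ∀ y, ∀ θ ∈ Θ y, ∃ U ∈ unitary (Op d), ∀ n : ℕ,
    cf μ e (fun m => F (τ^[n] (θ m))) = U (star (co S φ n y) (f (S^[n] y)))

/-! ## Block A: assembly -/

/-- GRI: Riemann integrable vectors. -/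
def ST_GRI : Prop := ∀ (r : ℕ) (S : T r → T r), Good3 S → EQ S (mm r) → ∀ (d : ℕ)
  (φ : T r → Op d) (v : T r → E d) (u : E d) (x : T r), UR φ → RI v →
  Tendsto (fun N : ℕ => MS (ff S φ v u x) N / (N : ℂ)) atTop (𝓝 0)

/-- FXC: the theorem for continuous functions. -/
def ST_FXC : Prop := ∀ (X : Type) [MetricSpace X] [CompactSpace X] (r : ℕ) (π : X → T r)
  (S : T r → T r) (τ : X → X) (ρ : X → X → ℝ), IsoExt π S τ ρ → Good3 S → EQ S (mm r) →
  Continuous S → MeasurePreserving S (mm r) (mm r) → FibreCts π τ → ∀ (F : C(X, ℂ)) (x : X),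
  Tendsto (fun N : ℕ => MS (fun n => F (τ^[n] x)) N / (N : ℂ)) atTop (𝓝 0)

/-- RXS: functions which are continuous at almost all fibres are near continuous functions. -/
def ST_RXS : Prop := ∀ (X : Type) [MetricSpace X] [CompactSpace X] (r : ℕ) (π : X → T r)
  (F : X → ℂ) (C : ℝ), Continuous π → (∀ x, ‖F x‖ ≤ C) → FibreCts π F → ∀ ε : ℝ, 0 < ε →
  ∃ (G : C(X, ℂ)) (R : C(T r, ℝ)), (∀ x, ‖F x - G x‖ ≤ R (π x)) ∧ ∫ y, R y ∂(mm r) ≤ ε

/-- FXR: the theorem for functions which are continuous at almost all fibres. -/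
def ST_FXR : Prop := ∀ (X : Type) [MetricSpace X] [CompactSpace X] (r : ℕ) (π : X → T r)
  (S : T r → T r) (τ : X → X) (ρ : X → X → ℝ), IsoExt π S τ ρ → Good3 S → EQ S (mm r) →
  Continuous S → MeasurePreserving S (mm r) (mm r) → FibreCts π τ → ∀ (F : X → ℂ) (C : ℝ),
  (∀ x, ‖F x‖ ≤ C) → FibreCts π F → ∀ x : X,
  Tendsto (fun N : ℕ => MS (fun n => F (τ^[n] x)) N / (N : ℂ)) atTop (𝓝 0)

/-- the theorem holds for all continuous isometric extensions of `S` -/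
def FX {r : ℕ} (S : T r → T r) : Prop := ∀ (X : Type) [MetricSpace X] [CompactSpace X]
  (π : X → T r) (τ : X → X) (ρ : X → X → ℝ), IsoExt π S τ ρ → Continuous τ →
  ∀ (F : C(X, ℂ)) (x : X),
  Tendsto (fun N : ℕ => MS (fun n => F (τ^[n] x)) N / (N : ℂ)) atTop (𝓝 0)

/-- ZEX: affine maps of zero entropy. -/
def ST_ZEX : Prop := ∀ (r : ℕ) (A : Matrix (Fin r) (Fin r) ℤ) (β : T r) (S : T r → T r),
  ZEnt A β S → (∀ (N : ℕ) (A' : Matrix (Fin N) (Fin N) ℤ) (β' : T N) (S' : C(T N, T N)),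
    Pool.Agent.Helper16.CZP.Affine A' β' S' → FX S') → FX S

end Pool.Agent.Helper40.IZ
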