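import Pool.Agent.Helper40.IZ.Stmts
import Pool.Agent.Helper60.IZ.ZEX

/-!
Row EMB: isometric maps between the fibres.
-/

open Filter MeasureTheory Topology

namespace Pool.Agent.Helper40.IZ

open Pool.Agent.Helper16.AZ (T mm)
open Pool.Agent.Helper16.BZ (EQ)
open Pool.Agent.Helper40.IZP (IsoExt)

theorem st_EMB : ST_EMB := by
  intro X _ _ r π S τ ρ hI hEQ y₀ y₁
  obtain ⟨hπ, hc, hρc, hρ0, hρs, hρt, hρi⟩ := hI
  have hd : y₁ ∈ closure (Set.range fun n : ℕ => S^[n] y₀) :=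
    zex_dense hEQ le_rfl y₀ isClosed_closure (fun n => subset_closure (Set.mem_range_self (1 * n))) y₁
  have hne : (Filter.comap (fun n : ℕ => S^[n] y₀) (𝓝 y₁)).NeBot := by
    rw [Filter.comap_neBot_iff]
    intro t ht
    obtain ⟨z, hz, n, hn⟩ := mem_closure_iff_nhds.mp hd t ht
    exact ⟨n, by simpa only [hn] using hz⟩
  let U : Ultrafilter ℕ := Ultrafilter.of (Filter.comap (fun n : ℕ => S^[n] y₀) (𝓝 y₁))
  have hU : Tendsto (fun n : ℕ => S^[n] y₀) U (𝓝 y₁) :=
    tendsto_comap.mono_left (Ultrafilter.of_le _)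
  have hpi : ∀ (n : ℕ) (x : X), π (τ^[n] x) = S^[n] (π x) := by
    intro n x
    induction n with
    | zero => rfl
    | succ n ih => rw [Function.iterate_succ_apply', Function.iterate_succ_apply', hc, ih]
  have hri : ∀ (n : ℕ) (x x' : X), π x = π x' → ρ (τ^[n] x) (τ^[n] x') = ρ x x' := by
    intro n x x' h
    induction n with
    | zero => rfl
    | succ n ih =>
      rw [Function.iterate_succ_apply', Function.iterate_succ_apply', hρi _ _ ?_, ih]
      rw [hpi, hpi, h]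
  have hg : ∀ x : X, Tendsto (fun n : ℕ => τ^[n] x) U (𝓝 (U.map fun n : ℕ => τ^[n] x).lim) :=
    fun x => Ultrafilter.le_nhds_lim (U.map fun n : ℕ => τ^[n] x)
  have hgp : ∀ x, π x = y₀ → π ((U.map fun n : ℕ => τ^[n] x).lim) = y₁ := by
    intro x hx
    have h1 : Tendsto (fun n : ℕ => π (τ^[n] x)) U (𝓝 (π ((U.map fun n : ℕ => τ^[n] x).lim))) :=
      (hπ.tendsto _).comp (hg x)
    refine tendsto_nhds_unique h1 ?_
    refine hU.congr fun n => ?_
    rw [hpi, hx]
  refine ⟨fun x => (U.map fun n : ℕ => τ^[n] x).lim, fun x hx => ⟨hgp x hx, fun x' hx' => ?_⟩⟩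
  have h1 := hgp x hx
  have h2 := hgp x' hx'
  have h3 : Tendsto (fun n : ℕ => (τ^[n] x, τ^[n] x')) U
      (𝓝[{z : X × X | π z.1 = π z.2}] ((U.map fun n : ℕ => τ^[n] x).lim,
        (U.map fun n : ℕ => τ^[n] x').lim)) := by
    rw [tendsto_nhdsWithin_iff]
    refine ⟨(hg x).prodMk_nhds (hg x'), Eventually.of_forall fun n => ?_⟩
    show π (τ^[n] x) = π (τ^[n] x')
    rw [hpi, hpi, hx, hx']
  have h4 := (hρc _ (show π ((U.map fun n : ℕ => τ^[n] x).lim) =
    π ((U.map fun n : ℕ => τ^[n] x').lim) by rw [h1, h2])).tendsto.comp h3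
  refine tendsto_nhds_unique h4 ?_
  refine tendsto_const_nhds.congr fun n => ?_
  exact (hri n x x' (by rw [hx, hx'])).symm

end Pool.Agent.Helper40.IZ
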