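import Pool.Agent.Helper40.IZ.Fin
import Pool.Agent.Helper40.DZ.All
import Pool.Agent.Helper2.IZ.Frm
import Pool.Agent.Helper26.IZ.Cmp
import Pool.Agent.Helper26.IZ.Mod
import Pool.Agent.Helper29.IZ.GRI
import Pool.Agent.Helper29.IZ.HMS
import Pool.Agent.Helper29.IZ.SPC
import Pool.Agent.Helper36.IZ.CVR
import Pool.Agent.Helper36.IZ.CYC
import Pool.Agent.Helper40.IZ.EMB
import Pool.Agent.Helper60.IZ.ZEX
import Pool.Agent.Helper62.IZ.KOP
import Pool.Agent.Helper62.IZ.FDE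
import Pool.Agent.Helper62.IZ.RXS
import Pool.Agent.Helper72.IZ.EQC
import Pool.Agent.Helper89.IZ.Hmg
import Pool.Agent.Helper89.IZ.Pol
import Pool.Agent.Helper93.IZ.FXC
import Pool.Agent.Helper93.IZ.FXR

/-!
All the modules of the theorem on isometric extensions put together.
-/

namespace Pool.Agent.Helper40.IZ

theorem all_CMP : ST_CMP := st_CMP

theorem all_EQC : ST_EQC := st_EQC all_CMP

theorem all_GRI : ST_GRI := st_GRI Pool.Agent.Helper40.DZ.all_RIS

theorem all_FRM : ST_FRM := Pool.Agent.Helper2.IZ.st_FRM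

theorem all_CYC : ST_CYC := st_CYC all_FRM st_POL st_CVR

theorem all_FDE : ST_FDE := st_FDE st_KOP st_SPC

theorem all_HMS : ST_HMS := st_HMS Pool.Agent.Helper89.IZ.st_HMG

theorem all_MOD : ST_MOD := st_MOD all_CMP all_EQC st_EMB

theorem all_FXC : ST_FXC := st_FXC all_MOD all_HMS all_FDE all_CYC all_GRI

theorem all_FXR : ST_FXR := st_FXR all_FXC st_RXS

theorem all_ZEX : ST_ZEX :=
  st_ZEX Pool.Agent.Helper40.DZ.all_ORB all_MOD Pool.Agent.Helper16.BZ.all_AEQ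

open Pool.Agent.Helper16.AZ (T)

/-- part 1 -/
theorem all_one (X : Type) [MetricSpace X] [CompactSpace X] (r : ℕ) (π : X → T r)
    (S : C(T r, T r)) (τ : X → X) (ρ : X → X → ℝ) (F : X → ℂ)
    (hI : IZP.IsoExt π S τ ρ) (hA : IZP.Adm π S τ F) (x : X) : DZP.Vanish τ F x :=
  fin_one all_FXC all_FXR all_ZEX Pool.Agent.Helper40.DZ.all_GBS
    Pool.Agent.Helper16.BZ.all_AEQ Pool.Agent.Helper16.BZ.all_AHO Pool.Agent.Helper16.BZ.all_AMP
    Pool.Agent.Helper16.CZ.all_TEQ Pool.Agent.Helper16.CZ.all_TMP Pool.Agent.Helper16.CZ.all_CFN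
    X r π S τ ρ F hI hA x

end Pool.Agent.Helper40.IZ
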