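import Pool.Agent.Helper40.IZ.Stmts
import Pool.Agent.Helper40.DZ.Fin
import Pool.Agent.Helper16.BZ.Stmts

/-!
The last step: from the statements of the modules to the hand-in (isometric extensions).
-/

open Finset Filter MeasureTheory Topology
open scoped ArithmeticFunction.Moebius

namespace Pool.Agent.Helper40.IZ

open Pool.Agent.Helper16.AZ (T E Op mm)
open Pool.Agent.Helper16.BZ (EQ)
open Pool.Agent.Helper40.DZ (Good3 ST_GBS base_EQ)
open Pool.Agent.Helper16.CZP (Base)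
open Pool.Agent.Helper40.IZP (IsoExt FibreCts)

theorem base_MP (hAHO : Pool.Agent.Helper16.BZ.ST_AHO) (hAMP : Pool.Agent.Helper16.BZ.ST_AMP)
    (hTMP : Pool.Agent.Helper16.CZ.ST_TMP) (hCFN : Pool.Agent.Helper16.CZ.ST_CFN) {r : ℕ}
    (S : C(UnitAddTorus (Fin r), UnitAddTorus (Fin r))) (h : Base S) :
    MeasurePreserving S (mm r) (mm r) := by
  rcases h with ⟨A, β, hA⟩ | ⟨lev, D, f, hT⟩
  · obtain ⟨S', hS'⟩ := hAHO r A β hA.1
    have h1 : (S : UnitAddTorus (Fin r) → UnitAddTorus (Fin r)) = S' := by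
      funext x i
      rw [hA.2.2 x i, hS' x i]
    rw [h1]
    exact hAMP r A β S' hS'
  · obtain ⟨ψ, hψ⟩ := hCFN r lev D f S hT
    exact hTMP r lev D ψ S hψ

theorem fx_of {r : ℕ} {S : UnitAddTorus (Fin r) → UnitAddTorus (Fin r)} (hFXC : ST_FXC)
    (h1 : Good3 S) (h2 : EQ S (mm r)) (h3 : Continuous S)
    (h4 : MeasurePreserving S (mm r) (mm r)) : FX S := by
  intro X _ _ π τ ρ hI hτ F x
  exact hFXC X r π S τ ρ hI h1 h2 h3 h4
    (Eventually.of_forall fun y x _ => hτ.continuousAt) F x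

/-- part 1 -/
theorem fin_one (hFXC : ST_FXC) (hFXR : ST_FXR) (hZEX : ST_ZEX) (hG : ST_GBS)
    (hAEQ : Pool.Agent.Helper16.BZ.ST_AEQ) (hAHO : Pool.Agent.Helper16.BZ.ST_AHO)
    (hAMP : Pool.Agent.Helper16.BZ.ST_AMP) (hTEQ : Pool.Agent.Helper16.CZ.ST_TEQ)
    (hTMP : Pool.Agent.Helper16.CZ.ST_TMP) (hCFN : Pool.Agent.Helper16.CZ.ST_CFN)
    (X : Type) [MetricSpace X] [CompactSpace X] (r : ℕ) (π : X → UnitAddTorus (Fin r))
    (S : C(UnitAddTorus (Fin r), UnitAddTorus (Fin r))) (τ : X → X) (ρ : X → X → ℝ)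
    (F : X → ℂ) (hI : IsoExt π S τ ρ) (hA : IZP.Adm π S τ F) (x : X) :
    DZP.Vanish τ F x := by
  rcases hA with ⟨hB, hτ, hF, C, hC⟩ | ⟨hZ, hτ, hF⟩
  · exact hFXR X r π S τ ρ hI (hG r S hB) (base_EQ hAEQ hTEQ hCFN S hB) S.continuous
      (base_MP hAHO hAMP hTMP hCFN S hB) hτ F C hC hF x
  · obtain ⟨A, β, hA⟩ := hZ
    refine hZEX r A β S hA (fun N A' β' S' h' => ?_) X π τ ρ hI hτ ⟨F, hF⟩ x
    have hB : Base S' := Or.inl ⟨A', β', h'⟩
    exact fx_of hFXC (hG N S' hB) (base_EQ hAEQ hTEQ hCFN S' hB) S'.continuous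
      (base_MP hAHO hAMP hTMP hCFN S' hB)

end Pool.Agent.Helper40.IZ
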